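import Pool.Agent.Helper11.OS.GR

/-!
# OS, block GR': good reduction of a family over a closed subset of the base
-/

set_option autoImplicit false

namespace Pool.Agent.Helper11.OS

open MvPolynomial Pool.Agent.Helper61.TH Pool.Agent.Helper87.FK Pool.Agent.Helper26.OB Pool.Agent.Helper26.OS
open Pool.Agent.Helper11.OB (rd_eq rd_of_mk)

noncomputable section

/-- Nullstellensatz over a subfield, two polynomials on a closed set -/
theorem bezoutB (A : Subfield ℂ) {σ : Type} [Finite σ] (S : Set (MvPolynomial σ A)) (g : Fin 2 → MvPolynomial σ A)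
    (h : ∀ y : σ → ℂ, (∀ b ∈ S, aeval y b = 0) → ¬ ∀ i, aeval y (g i) = 0) :
    ∃ (u : Fin 2 → MvPolynomial σ A) (v : MvPolynomial σ A), v ∈ Ideal.span S ∧ ∑ i, u i * g i + v = 1 := by
  have h1 : zeroLocus ℂ (Ideal.span (S ∪ {g 0, g 1})) = ∅ := by
    rw [zeroLocus_span, Set.eq_empty_iff_forall_notMem]
    intro y hy
    apply h y (fun b hb => hy b (Set.mem_union_left _ hb))
    intro i
    fin_cases i
    · exact hy _ (by simp)
    · exact hy _ (by simp)
  have h2 : (Ideal.span (S ∪ {g 0, g 1})).radical = ⊤ := by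
    rw [← vanishingIdeal_zeroLocus_eq_radical (K := ℂ), h1, vanishingIdeal_empty]
  have h3 : (1 : MvPolynomial σ A) ∈ Ideal.span (S ∪ {g 0, g 1}) := by
    rw [← Ideal.eq_top_iff_one]
    exact Ideal.radical_eq_top.mp h2
  rw [Ideal.span_union, Submodule.mem_sup] at h3
  obtain ⟨v, hv, w, hw, hvw⟩ := h3
  rw [Ideal.mem_span_pair] at hw
  obtain ⟨a, b, hab⟩ := hw
  refine ⟨![a, b], v, hv, ?_⟩
  rw [Fin.sum_univ_two, add_comm, ← hvw, ← hab]
  rfl

theorem chartB (A : Subfield ℂ) {m n : ℕ} (B : Set (MvPolynomial (Fin m) ℂ)) (hB : ∀ g ∈ B, ∀ s, coeff s g ∈ A) (c : Fin 2 → Fin n → MvPolynomial (Fin m) ℂ) (hc : ∀ i j s, coeff s (c i j) ∈ A)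
    (e : Fin n → ℕ) (h : ∀ (t : Fin m → ℂ) (x : ℂ), (∀ g ∈ B, eval t g = 0) → ¬ ∀ i, ∑ j, eval t (c i j) * x ^ e j = 0) :
    ∃ Z : Finset ℂ, (∀ z ∈ Z, z ∈ A) ∧ ∀ (p : ℕ) [Fact p.Prime] (τ : ℂ →+* PadicAlgCl p), Un τ Z →
      (∀ i j s, ‖τ (coeff s (c i j))‖ ≤ 1) → ∀ t : Fin m → ℂ, (∀ g ∈ B, eval t g = 0) → (∀ i, ‖τ (t i)‖ ≤ 1) → ∀ ξ : kk p,
        ¬ ∀ i, ∑ j, rd τ (eval t (c i j)) * ξ ^ e j = 0 := by
  classical
  choose c' hc' using fun i j => exists_lift A (c i j) (hc i j)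
  set g : Fin 2 → MvPolynomial (Fin m ⊕ Unit) A := fun i => ∑ j, rename Sum.inl (c' i j) * X (Sum.inr ()) ^ e j with hg
  have hgv : ∀ (B : Type) [CommRing B] (f : A →+* B) (y : Fin m ⊕ Unit → B) (i : Fin 2),
      eval₂ f y (g i) = ∑ j, eval₂ f (y ∘ Sum.inl) (c' i j) * y (Sum.inr ()) ^ e j := by
    intro B _ f y i
    rw [hg, ← coe_eval₂Hom, map_sum]
    refine Finset.sum_congr rfl fun j _ => ?_
    rw [map_mul, map_pow, coe_eval₂Hom, eval₂_rename, eval₂_X]
  obtain ⟨u, v, hv, hu⟩ := bezoutB A (rename Sum.inl '' {b : MvPolynomial (Fin m) A | map (algebraMap A ℂ) b ∈ B}) g (by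
    intro y hyB hy
    apply h (y ∘ Sum.inl) (y (Sum.inr ())) (by
      intro b hb
      obtain ⟨b', hb'⟩ := exists_lift A b (hB b hb)
      have h1 := hyB (rename Sum.inl b') ⟨b', by rw [Set.mem_ofPred_eq, hb']; exact hb, rfl⟩
      rw [aeval_def, eval₂_rename] at h1
      rw [← hb', eval_map]
      exact h1)
    intro i
    have h1 := hy i
    rw [aeval_def, hgv] at h1
    rw [← h1]
    refine Finset.sum_congr rfl fun j _ => ?_
    rw [← hc' i j, eval_map])
  refine ⟨(Finset.univ : Finset (Fin 2)).biUnion fun i => (u i).support.image fun s => ((coeff s (u i) : A) : ℂ), ?_, ?_⟩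
  · intro z hz
    obtain ⟨i, -, hi⟩ := Finset.mem_biUnion.mp hz
    obtain ⟨s, -, rfl⟩ := Finset.mem_image.mp hi
    exact (coeff s (u i)).2
  intro p _ τ hU hci t htB ht ξ hz
  obtain ⟨w, hw⟩ := Ideal.Quotient.mk_surjective ξ
  set y : Fin m ⊕ Unit → PadicAlgCl p := Sum.elim (fun i => τ (t i)) (fun _ => (w : PadicAlgCl p)) with hy
  have hyO : ∀ i, y i ∈ Oc p := by
    rintro (i | i)
    · exact mem_Oc.2 (ht i)
    · exact w.2
  set φ : A →+* PadicAlgCl p := τ.comp (algebraMap A ℂ) with hφ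
  have huO : ∀ i, eval₂ φ y (u i) ∈ Oc p := by
    intro i
    apply eval_mem φ _ _ _ hyO
    intro s
    by_cases hs : coeff s (u i) = 0
    · rw [hs, map_zero, norm_zero]
      exact zero_le_one
    · exact (hU _ (Finset.mem_biUnion.mpr ⟨i, Finset.mem_univ i, Finset.mem_image.mpr ⟨s, mem_support_iff.mpr hs, rfl⟩⟩)).1
  have hcO : ∀ i j, ‖τ (eval t (c i j))‖ ≤ 1 := by
    intro i j
    rw [map_eval]
    exact mem_Oc.1 (eval_mem τ _ (hci i j) _ fun i => mem_Oc.2 (ht i))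
  set G : Fin 2 → Oc p := fun i => ∑ j, (⟨τ (eval t (c i j)), mem_Oc.2 (hcO i j)⟩ : Oc p) * w ^ e j with hG
  set U : Fin 2 → Oc p := fun i => ⟨eval₂ φ y (u i), huO i⟩ with hUd
  have hGv : ∀ i, (G i : PadicAlgCl p) = eval₂ φ y (g i) := by
    intro i
    rw [hgv, hG]
    push_cast
    refine Finset.sum_congr rfl fun j _ => ?_
    have h1 : τ (eval t (c i j)) = eval₂ φ (y ∘ Sum.inl) (c' i j) := by
      rw [map_eval, ← hc' i j, eval₂_map]
      rfl
    rw [h1]
    rfl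
  have hv0 : eval₂Hom φ y v = 0 := by
    have h1 : Ideal.span (rename Sum.inl '' {b : MvPolynomial (Fin m) A | map (algebraMap A ℂ) b ∈ B}) ≤
        RingHom.ker (eval₂Hom φ y) := by
      rw [Ideal.span_le]
      rintro _ ⟨b, hb, rfl⟩
      rw [SetLike.mem_coe, RingHom.mem_ker, coe_eval₂Hom, eval₂_rename]
      have h2 : eval₂ φ (y ∘ Sum.inl) b = τ (eval t (map (algebraMap A ℂ) b)) := by
        rw [map_eval, eval₂_map]
        rfl
      rw [h2, htB _ hb, map_zero]
    exact h1 hv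
  have h1 : ∑ i, U i * G i = 1 := by
    apply Subtype.ext
    push_cast
    have h2 := congrArg (eval₂Hom φ y) hu
    rw [map_add, hv0, add_zero, map_sum, map_one] at h2
    rw [← h2]
    refine Finset.sum_congr rfl fun i _ => ?_
    rw [map_mul, hGv]
    rfl
  have h2 : ∀ i, Ideal.Quotient.mk (mm p) (G i) = 0 := by
    intro i
    rw [← hz i, hG, map_sum]
    refine Finset.sum_congr rfl fun j _ => ?_
    rw [map_mul, map_pow, hw, rd_eq τ (hcO i j)]
  have h3 := congrArg (Ideal.Quotient.mk (mm p)) h1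
  rw [map_sum, map_one] at h3
  simp only [map_mul, h2, mul_zero, Finset.sum_const_zero] at h3
  exact zero_ne_one h3

/-- **GR'**: good reduction of a family over a closed subset of the base -/
theorem redB (A : Subfield ℂ) (hA : ∀ z : ℂ, IsAlgebraic A z → z ∈ A) {m k : ℕ} {d : Fin k → ℕ}
    (B : Set (MvPolynomial (Fin m) ℂ)) (hB : ∀ g ∈ B, ∀ s, coeff s g ∈ A)
    (C : Idx d → MvPolynomial (Fin m) ℂ) (hC : ∀ q s, coeff s (C q) ∈ A)
    (hdeg : ∀ t : Fin m → ℂ, (∀ g ∈ B, eval t g = 0) → HasDeg (at' C t)) : ∃ Z : Finset ℂ, (∀ z ∈ Z, z ∈ A) ∧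
      ∀ (p : ℕ) [Fact p.Prime] (τ : ℂ →+* PadicAlgCl p), Un τ Z → (∀ q s, ‖τ (coeff s (C q))‖ ≤ 1) ∧
        ∀ t : Fin m → ℂ, (∀ g ∈ B, eval t g = 0) → (∀ i, ‖τ (t i)‖ ≤ 1) → ∀ a (x : Fin 2 → kk p), x ≠ 0 →
          ev (form (fun q => rd τ (at' C t q)) a) x ≠ 0 := by
  classical
  have c1 := fun a : Fin k => chartB A B hB (fun i (j : Fin (d a + 1)) => C ⟨a, (i, j)⟩) (fun i j s => hC _ s) (fun j => (j : ℕ)) (by
    intro t x htB h
    have h1 := hdeg t htB a ![x, 1] (by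
      funext i
      rw [Pi.zero_apply, ← h i]
      refine Finset.sum_congr rfl fun j _ => ?_
      simp [at'])
    have h2 := congrFun h1 1
    simp at h2)
  have c2 := fun a : Fin k => chartB A B hB (fun i (j : Fin (d a + 1)) => C ⟨a, (i, j)⟩) (fun i j s => hC _ s) (fun j => d a - (j : ℕ)) (by
    intro t x htB h
    have h1 := hdeg t htB a ![1, x] (by
      funext i
      rw [Pi.zero_apply, ← h i]
      refine Finset.sum_congr rfl fun j _ => ?_
      simp [at'])
    have h2 := congrFun h1 0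
    simp at h2)
  choose Z1 hZ1 H1 using c1
  choose Z2 hZ2 H2 using c2
  refine ⟨(Finset.univ.biUnion fun a => Z1 a ∪ Z2 a) ∪ Finset.univ.biUnion fun q => (C q).support.image fun s => coeff s (C q),
    ?_, ?_⟩
  · intro z hz
    rcases Finset.mem_union.mp hz with h | h
    · obtain ⟨a, -, ha⟩ := Finset.mem_biUnion.mp h
      rcases Finset.mem_union.mp ha with h | h
      · exact hZ1 a z h
      · exact hZ2 a z h
    · obtain ⟨q, -, hq⟩ := Finset.mem_biUnion.mp h
      obtain ⟨s, -, rfl⟩ := Finset.mem_image.mp hq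
      exact hC q s
  intro p _ τ hU
  have hci : ∀ q s, ‖τ (coeff s (C q))‖ ≤ 1 := by
    intro q s
    by_cases hs : coeff s (C q) = 0
    · rw [hs, map_zero, norm_zero]
      exact zero_le_one
    · exact (hU _ (Finset.mem_union_right _ (Finset.mem_biUnion.mpr ⟨q, Finset.mem_univ q,
        Finset.mem_image.mpr ⟨s, mem_support_iff.mpr hs, rfl⟩⟩))).1
  refine ⟨hci, fun t htB ht a x hx h => ?_⟩
  have hv : ∀ i, ∑ j : Fin (d a + 1), rd τ (eval t (C ⟨a, (i, j)⟩)) * x 0 ^ (j : ℕ) * x 1 ^ (d a - j) = 0 := by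
    intro i
    have h1 := congrFun h i
    simp only [ev, Pi.zero_apply] at h1
    rw [eval_form] at h1
    exact h1
  by_cases h1 : x 1 = 0
  · have h0 : x 0 ≠ 0 := by
      intro h0
      apply hx
      funext i
      fin_cases i
      · exact h0
      · exact h1
    refine H2 a p τ (fun z hz => hU z (Finset.mem_union_left _ (Finset.mem_biUnion.mpr ⟨a, Finset.mem_univ a,
      Finset.mem_union_right _ hz⟩))) (fun i j s => hci _ s) t htB ht (x 1 / x 0) fun i => ?_
    have h2 : (∑ j : Fin (d a + 1), rd τ (eval t (C ⟨a, (i, j)⟩)) * (x 1 / x 0) ^ (d a - (j : ℕ))) * x 0 ^ d a = 0 := by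
      rw [← hv i, Finset.sum_mul]
      refine Finset.sum_congr rfl fun j _ => ?_
      have e : x 0 ^ d a = x 0 ^ (j : ℕ) * x 0 ^ (d a - (j : ℕ)) := by
        rw [← pow_add]
        congr 1
        have := j.2
        omega
      rw [e, div_pow]
      field_simp
    exact (mul_eq_zero.mp h2).resolve_right (pow_ne_zero _ h0)
  · refine H1 a p τ (fun z hz => hU z (Finset.mem_union_left _ (Finset.mem_biUnion.mpr ⟨a, Finset.mem_univ a,
      Finset.mem_union_left _ hz⟩))) (fun i j s => hci _ s) t htB ht (x 0 / x 1) fun i => ?_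
    have h2 : (∑ j : Fin (d a + 1), rd τ (eval t (C ⟨a, (i, j)⟩)) * (x 0 / x 1) ^ (j : ℕ)) * x 1 ^ d a = 0 := by
      rw [← hv i, Finset.sum_mul]
      refine Finset.sum_congr rfl fun j _ => ?_
      have e : x 1 ^ d a = x 1 ^ (j : ℕ) * x 1 ^ (d a - (j : ℕ)) := by
        rw [← pow_add]
        congr 1
        have := j.2
        omega
      rw [e, div_pow]
      field_simp
    exact (mul_eq_zero.mp h2).resolve_right (pow_ne_zero _ h1)

end

end Pool.Agent.Helper11.OS
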