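import Pool.Agent.Helper11.OB.Red
import Pool.Agent.Helper10.OS.CR
import Pool.Agent.Helper26.OS.Defs
import Pool.Agent.Helper46.OB.Alg

/-!
# OS, block CL: critical points of the reduction lift to critical points
-/

set_option autoImplicit false

namespace Pool.Agent.Helper11.OS

open Polynomial Pool.Agent.Helper61.TH Pool.Agent.Helper26.OB Pool.Agent.Helper87.FK
open Pool.Agent.Helper11.OB (rd_eq rd_of_mk rd_wr wr_sum wrh_eq natDegree_wr)

noncomputable section

variable {p : ℕ} [Fact p.Prime] (τ : ℂ →+* PadicAlgCl p)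

open Classical in
/-- the integral roots -/
def intr (S : Multiset ℂ) : Multiset ℂ := S.filter fun z => ‖τ z‖ ≤ 1

theorem intr_pos {z : ℂ} (S : Multiset ℂ) (hz : ‖τ z‖ ≤ 1) : intr τ (z ::ₘ S) = z ::ₘ intr τ S := by
  classical
  exact Multiset.filter_cons_of_pos (p := fun z => ‖τ z‖ ≤ 1) S hz

theorem intr_neg {z : ℂ} (S : Multiset ℂ) (hz : ¬ ‖τ z‖ ≤ 1) : intr τ (z ::ₘ S) = intr τ S := by
  classical
  exact Multiset.filter_cons_of_neg (p := fun z => ‖τ z‖ ≤ 1) S hz

/-- the product of the linear factors, made primitive -/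
theorem mix (S : Multiset ℂ) : ∃ (Q : (Oc p)[X]) (u : PadicAlgCl p),
    ((S.map fun z => X - C z).prod).map τ = C u * Q.map (algebraMap (Oc p) (PadicAlgCl p)) ∧
      Q.map (Ideal.Quotient.mk (mm p)) = ((intr τ S).map fun z => X - C (rd τ z)).prod := by
  classical
  induction S using Multiset.induction_on with
  | empty => exact ⟨1, 1, by simp, by simp [intr]⟩
  | cons z S ih =>
    obtain ⟨Q, u, h1, h2⟩ := ih
    by_cases hz : ‖τ z‖ ≤ 1
    · refine ⟨(X - C ⟨τ z, mem_Oc.2 hz⟩) * Q, u, ?_, ?_⟩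
      · rw [Multiset.map_cons, Multiset.prod_cons, Polynomial.map_mul, h1, Polynomial.map_mul, Polynomial.map_sub,
          Polynomial.map_sub, map_X, map_X, map_C, map_C]
        have e : (algebraMap (Oc p) (PadicAlgCl p)) ⟨τ z, mem_Oc.2 hz⟩ = τ z := rfl
        rw [e]
        ring
      · rw [Polynomial.map_mul, h2, Polynomial.map_sub, map_X, map_C, intr_pos τ S hz,
          Multiset.map_cons, Multiset.prod_cons, rd_eq τ hz]
    · have hz1 : 1 < ‖τ z‖ := not_le.mp hz
      have hz0 : τ z ≠ 0 := by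
        intro h0
        rw [h0, norm_zero] at hz1
        linarith
      have hin : ‖(τ z)⁻¹‖ < 1 := by
        rw [norm_inv]
        exact inv_lt_one_of_one_lt₀ hz1
      refine ⟨(1 - C ⟨(τ z)⁻¹, mem_Oc.2 hin.le⟩ * X) * Q, -τ z * u, ?_, ?_⟩
      · rw [Multiset.map_cons, Multiset.prod_cons, Polynomial.map_mul, h1, Polynomial.map_mul, Polynomial.map_sub,
          Polynomial.map_sub, map_X, map_C, Polynomial.map_mul, map_C, map_X, Polynomial.map_one]
        have e : (algebraMap (Oc p) (PadicAlgCl p)) ⟨(τ z)⁻¹, mem_Oc.2 hin.le⟩ = (τ z)⁻¹ := rfl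
        have e2 : (C (τ z) : (PadicAlgCl p)[X]) * C ((τ z)⁻¹) = 1 := by
          rw [← C_mul, mul_inv_cancel₀ hz0, C_1]
        rw [e, C_mul, C_neg]
        linear_combination (-1 : (PadicAlgCl p)[X]) * X * C u * map (algebraMap (Oc p) (PadicAlgCl p)) Q * e2
      · have e : Ideal.Quotient.mk (mm p) (⟨(τ z)⁻¹, mem_Oc.2 hin.le⟩ : Oc p) = 0 := by
          rw [Ideal.Quotient.eq_zero_iff_mem, mem_mm]
          exact hin
        rw [Polynomial.map_mul, h2, Polynomial.map_sub, Polynomial.map_one, Polynomial.map_mul, map_C, e, C_0, zero_mul,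
          sub_zero, one_mul, intr_neg τ S hz]

/-- the zeros of the reduction of a binary form with integral coefficients whose reduction is not zero -/
theorem zero_form' {P : ℂ[X]} {D : ℕ} (hD : P.natDegree ≤ D) (hi : ∀ j, ‖τ (P.coeff j)‖ ≤ 1) {m : ℕ}
    (hm : rd τ (P.coeff m) ≠ 0) (x : Fin 2 → kk p) (hx : x ≠ 0)
    (h : ∑ j ∈ Finset.range (D + 1), rd τ (P.coeff j) * x 0 ^ j * x 1 ^ (D - j) = 0) :
    (∃ z ∈ P.roots, ‖τ z‖ ≤ 1 ∧ pr x = some (rd τ z)) ∨ (pr x = none ∧ (P.coeff D = 0 ∨ ∃ z ∈ P.roots, 1 < ‖τ z‖)) := by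
  classical
  obtain ⟨Q, u, h1, h2⟩ := mix τ P.roots
  set w : PadicAlgCl p := τ P.leadingCoeff * u with hw
  have hP : P.map τ = C w * Q.map (algebraMap (Oc p) (PadicAlgCl p)) := by
    have e : P = C P.leadingCoeff * (P.roots.map fun z => X - C z).prod := (IsAlgClosed.splits P).eq_prod_roots
    conv_lhs => rw [e]
    rw [Polynomial.map_mul, h1, map_C, hw, C_mul, mul_assoc]
  have hco : ∀ j, τ (P.coeff j) = w * (Q.coeff j : PadicAlgCl p) := by
    intro j
    have h3 := congrArg (fun R => Polynomial.coeff R j) hP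
    simp only [coeff_map, coeff_C_mul] at h3
    exact h3
  set Q' : (kk p)[X] := Q.map (Ideal.Quotient.mk (mm p)) with hQ'
  have hmon : Q'.Monic := by
    rw [h2]
    exact monic_multiset_prod_of_monic _ _ fun z _ => monic_X_sub_C _
  have hdeg : Q'.natDegree = (intr τ P.roots).card := by
    rw [h2, natDegree_multiset_prod_of_monic]
    · rw [Multiset.map_map]
      simp only [Function.comp_def, natDegree_X_sub_C, Multiset.map_const', Multiset.sum_replicate, smul_eq_mul, mul_one]
    · intro f hf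
      obtain ⟨z, -, rfl⟩ := Multiset.mem_map.mp hf
      exact monic_X_sub_C _
  have hw1 : ‖w‖ ≤ 1 := by
    have h3 : Ideal.Quotient.mk (mm p) (Q.coeff Q'.natDegree) = 1 := by
      rw [← coeff_map]
      exact hmon
    have h4 : ‖(Q.coeff Q'.natDegree : PadicAlgCl p)‖ = 1 := by
      refine le_antisymm (mem_Oc.1 (Subtype.property _)) (not_lt.1 fun h5 => ?_)
      rw [Ideal.Quotient.eq_zero_iff_mem.2 (mem_mm.2 h5)] at h3
      exact zero_ne_one h3
    have h5 := hi Q'.natDegree
    rw [hco, norm_mul, h4, mul_one] at h5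
    exact h5
  set w' : kk p := Ideal.Quotient.mk (mm p) ⟨w, mem_Oc.2 hw1⟩ with hw'
  have hrd : ∀ j, rd τ (P.coeff j) = w' * Q'.coeff j := by
    intro j
    rw [hw', hQ', coeff_map, ← map_mul]
    exact rd_of_mk τ _ (by rw [hco]; rfl)
  have hw0 : w' ≠ 0 := by
    intro h0
    apply hm
    rw [hrd, h0, zero_mul]
  have hQD : Q'.natDegree ≤ D := by
    rw [natDegree_le_iff_coeff_eq_zero]
    intro n hn
    have h3 := hrd n
    rw [coeff_eq_zero_of_natDegree_lt (by omega : P.natDegree < n), Pool.Agent.Helper11.OB.rd_zero] at h3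
    exact (mul_eq_zero.mp h3.symm).resolve_left hw0
  by_cases hx1 : x 1 = 0
  · right
    refine ⟨by rw [pr, if_pos hx1], ?_⟩
    have hx0 : x 0 ≠ 0 := by
      intro h0
      apply hx
      funext i
      fin_cases i
      · exact h0
      · exact hx1
    rw [Finset.sum_range_succ, Finset.sum_eq_zero, zero_add, Nat.sub_self, pow_zero, mul_one] at h
    · have h3 := (mul_eq_zero.mp h).resolve_right (pow_ne_zero _ hx0)
      rw [hrd] at h3
      have h4 : Q'.coeff D = 0 := (mul_eq_zero.mp h3).resolve_left hw0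
      by_cases hPD : P.coeff D = 0
      · exact Or.inl hPD
      · right
        have h5 : P.natDegree = D := le_antisymm hD (le_natDegree_of_ne_zero hPD)
        have h6 : P.roots.card = D := by
          rw [← h5]
          exact (IsAlgClosed.splits P).natDegree_eq_card_roots.symm
        by_contra hcon
        push Not at hcon
        have h7 : intr τ P.roots = P.roots := by
          rw [intr, Multiset.filter_eq_self]
          exact hcon
        have h8 : Q'.coeff Q'.natDegree = 1 := hmon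
        rw [hdeg, h7, h6, h4] at h8
        exact zero_ne_one h8
    · intro j hj
      rw [Finset.mem_range] at hj
      rw [hx1, zero_pow (by omega), mul_zero]
  · left
    have h3 : eval (x 0 / x 1) Q' = 0 := by
      rw [eval_eq_sum_range' (Nat.lt_succ_of_le hQD)]
      have h4 : ∑ j ∈ Finset.range (D + 1), rd τ (P.coeff j) * x 0 ^ j * x 1 ^ (D - j) =
          w' * x 1 ^ D * ∑ j ∈ Finset.range (D + 1), Q'.coeff j * (x 0 / x 1) ^ j := by
        rw [Finset.mul_sum]
        refine Finset.sum_congr rfl fun j hj => ?_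
        rw [Finset.mem_range] at hj
        have e : x 1 ^ D = x 1 ^ j * x 1 ^ (D - j) := by
          rw [← pow_add]
          congr 1
          omega
        rw [hrd, e, div_pow]
        field_simp
      rw [h4] at h
      exact (mul_eq_zero.mp h).resolve_left (mul_ne_zero hw0 (pow_ne_zero _ hx1))
    rw [h2, eval_multiset_prod, Multiset.map_map, Multiset.prod_eq_zero_iff, Multiset.mem_map] at h3
    obtain ⟨z, hz, hz0⟩ := h3
    rw [intr, Multiset.mem_filter] at hz
    refine ⟨z, hz.1, hz.2, ?_⟩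
    rw [pr, if_neg hx1]
    simp only [Function.comp_apply, eval_sub, eval_X, eval_C] at hz0
    rw [sub_eq_zero.mp hz0]

/-- **CL**: critical points of the reduction lift to critical points -/
theorem critLift {p : ℕ} [Fact p.Prime] (τ : ℂ →+* PadicAlgCl p) {k : ℕ} {d : Fin k → ℕ} (c : Idx d → ℂ)
    (hc : ∀ q, ‖τ (c q)‖ ≤ 1) (a : Fin k) (hd : 1 ≤ d a) (hp : d a < p)
    (hgood : ∀ x : Fin 2 → kk p, x ≠ 0 → ev (form (fun q => rd τ (c q)) a) x ≠ 0) (x : Fin 2 → kk p) (hx : x ≠ 0)
    (hw : wrh (fun q => rd τ (c q)) a x = 0) : ∃ y : Fin 2 → ℂ, y ≠ 0 ∧ wrh c a y = 0 ∧ (y 1 = 0 → pr x = none) ∧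
      (y 1 ≠ 0 → ‖τ (y 0 / y 1)‖ ≤ 1 → pr x = some (rd τ (y 0 / y 1))) := by
  have := charP_kk p
  have := Pool.Agent.Helper46.OB.algClosed_kk p
  have hne : wr (fun q => rd τ (c q)) a ≠ 0 := by
    rw [wr_sum]
    exact Pool.Agent.Helper10.OS.wk_ne_zero p (fun q => rd τ (c q)) a hd hp hgood
  obtain ⟨m, hm⟩ : ∃ m, (wr (fun q => rd τ (c q)) a).coeff m ≠ 0 := by
    by_contra hcon
    push Not at hcon
    exact hne (Polynomial.ext fun n => by rw [hcon, coeff_zero])
  rw [rd_wr τ hc] at hm
  -- the coefficients of the Wronskian are integral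
  have hi : ∀ j, ‖τ ((wr c a).coeff j)‖ ≤ 1 := by
    intro j
    have h2 : (wr (fun q => (⟨τ (c q), mem_Oc.2 (hc q)⟩ : Oc p)) a).map (algebraMap (Oc p) (PadicAlgCl p)) = (wr c a).map τ := by
      rw [map_wr, map_wr]
      rfl
    have h5 := congrArg (fun R => Polynomial.coeff R j) h2
    simp only [coeff_map] at h5
    rw [← h5]
    exact mem_Oc.1 (Subtype.property _)
  rw [wrh_eq _ a hd] at hw
  simp only [rd_wr τ hc] at hw
  rcases zero_form' τ (natDegree_wr c a hd) hi hm x hx hw with ⟨z, hz, hz1, hz2⟩ | ⟨h1, h2⟩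
  · refine ⟨![z, 1], ?_, ?_, ?_, ?_⟩
    · intro h
      have h2 := congrFun h 1
      simp at h2
    · rw [wrh_eq _ a hd]
      have h2 : eval z (wr c a) = 0 := (mem_roots'.mp hz).2
      rw [eval_eq_sum_range' (n := 2 * d a - 2 + 1) (Nat.lt_succ_of_le (natDegree_wr c a hd))] at h2
      simpa using h2
    · intro h
      simp at h
    · intro _ _
      rw [hz2]
      simp
  · rcases h2 with h2 | ⟨z, hz, hz1⟩
    · refine ⟨![1, 0], ?_, ?_, fun _ => h1, ?_⟩
      · intro h
        have h2 := congrFun h 0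
        simp at h2
      · rw [wrh_eq _ a hd]
        refine Finset.sum_eq_zero fun m hm => ?_
        rw [Finset.mem_range] at hm
        by_cases hm' : m = 2 * d a - 2
        · rw [hm', h2, zero_mul, zero_mul]
        · have e : (![1, 0] : Fin 2 → ℂ) 1 = 0 := rfl
          rw [e, zero_pow (by omega), mul_zero]
      · intro h
        simp at h
    · refine ⟨![z, 1], ?_, ?_, ?_, ?_⟩
      · intro h
        have h2 := congrFun h 1
        simp at h2
      · rw [wrh_eq _ a hd]
        have h2 : eval z (wr c a) = 0 := (mem_roots'.mp hz).2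
        rw [eval_eq_sum_range' (n := 2 * d a - 2 + 1) (Nat.lt_succ_of_le (natDegree_wr c a hd))] at h2
        simpa using h2
      · intro h
        simp at h
      · intro _ h
        simp only [Matrix.cons_val_zero, Matrix.cons_val_one, div_one] at h
        exact absurd h (not_le.2 hz1)

end

end Pool.Agent.Helper11.OS
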