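import Pool.Agent.Helper26.OS.Defs
import Pool.Agent.Helper11.OB.BF

/-!
# OS, block GR: good reduction of a family
-/

set_option autoImplicit false

namespace Pool.Agent.Helper11.OS

open MvPolynomial Pool.Agent.Helper61.TH Pool.Agent.Helper87.FK Pool.Agent.Helper26.OB Pool.Agent.Helper26.OS
open Pool.Agent.Helper11.OB (rd_eq rd_of_mk)

noncomputable section

/-- a polynomial with coefficients in `A` comes from `A` -/
theorem exists_lift (A : Subfield ℂ) {σ : Type} (P : MvPolynomial σ ℂ) (hP : ∀ s, coeff s P ∈ A) :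
    ∃ Q : MvPolynomial σ A, MvPolynomial.map (algebraMap A ℂ) Q = P := by
  have h : P ∈ Set.range (MvPolynomial.map (σ := σ) (algebraMap A ℂ)) := by
    rw [mem_range_map_iff_coeffs_subset]
    intro z hz
    rw [Finset.mem_coe, mem_coeffs_iff] at hz
    obtain ⟨s, -, rfl⟩ := hz
    exact ⟨⟨_, hP s⟩, rfl⟩
  exact h

/-- Nullstellensatz for two polynomials over a subfield -/
theorem bezout (A : Subfield ℂ) {σ : Type} [Finite σ] (g : Fin 2 → MvPolynomial σ A)
    (h : ∀ y : σ → ℂ, ¬ ∀ i, aeval y (g i) = 0) : ∃ u : Fin 2 → MvPolynomial σ A, ∑ i, u i * g i = 1 := by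
  have h1 : zeroLocus ℂ (Ideal.span {g 0, g 1}) = ∅ := by
    rw [zeroLocus_span, Set.eq_empty_iff_forall_notMem]
    intro y hy
    apply h y
    intro i
    fin_cases i
    · exact hy _ (by simp)
    · exact hy _ (by simp)
  have h2 : (Ideal.span {g 0, g 1}).radical = ⊤ := by
    rw [← vanishingIdeal_zeroLocus_eq_radical (K := ℂ), h1, vanishingIdeal_empty]
  have h3 : (1 : MvPolynomial σ A) ∈ Ideal.span {g 0, g 1} := by
    rw [← Ideal.eq_top_iff_one]
    exact Ideal.radical_eq_top.mp h2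
  rw [Ideal.mem_span_pair] at h3
  obtain ⟨u, v, huv⟩ := h3
  refine ⟨![u, v], ?_⟩
  rw [Fin.sum_univ_two]
  exact huv

/-- values of integral polynomials at integral points are integral -/
theorem eval_mem {p : ℕ} [Fact p.Prime] {B : Type} [CommRing B] (τ : B →+* PadicAlgCl p) {σ : Type} (P : MvPolynomial σ B)
    (hP : ∀ s, ‖τ (coeff s P)‖ ≤ 1) (y : σ → PadicAlgCl p) (hy : ∀ i, y i ∈ Oc p) : eval₂ τ y P ∈ Oc p := by
  rw [eval₂_eq]
  exact sum_mem fun s _ => mul_mem (mem_Oc.2 (hP s)) (prod_mem fun i _ => pow_mem (hy i) _)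

theorem map_eval {p : ℕ} [Fact p.Prime] (τ : ℂ →+* PadicAlgCl p) {m : ℕ} (P : MvPolynomial (Fin m) ℂ) (t : Fin m → ℂ) :
    τ (eval t P) = eval₂ τ (fun i => τ (t i)) P := by
  rw [eval, coe_eval₂Hom, eval₂_comp_left τ]
  rfl

theorem chart (A : Subfield ℂ) {m n : ℕ} (c : Fin 2 → Fin n → MvPolynomial (Fin m) ℂ) (hc : ∀ i j s, coeff s (c i j) ∈ A)
    (e : Fin n → ℕ) (h : ∀ (t : Fin m → ℂ) (x : ℂ), ¬ ∀ i, ∑ j, eval t (c i j) * x ^ e j = 0) :
    ∃ Z : Finset ℂ, (∀ z ∈ Z, z ∈ A) ∧ ∀ (p : ℕ) [Fact p.Prime] (τ : ℂ →+* PadicAlgCl p), Un τ Z →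
      (∀ i j s, ‖τ (coeff s (c i j))‖ ≤ 1) → ∀ t : Fin m → ℂ, (∀ i, ‖τ (t i)‖ ≤ 1) → ∀ ξ : kk p,
        ¬ ∀ i, ∑ j, rd τ (eval t (c i j)) * ξ ^ e j = 0 := by
  classical
  choose c' hc' using fun i j => exists_lift A (c i j) (hc i j)
  set g : Fin 2 → MvPolynomial (Fin m ⊕ Unit) A := fun i => ∑ j, rename Sum.inl (c' i j) * X (Sum.inr ()) ^ e j with hg
  have hgv : ∀ (B : Type) [CommRing B] (f : A →+* B) (y : Fin m ⊕ Unit → B) (i : Fin 2),
      eval₂ f y (g i) = ∑ j, eval₂ f (y ∘ Sum.inl) (c' i j) * y (Sum.inr ()) ^ e j := by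
    intro B _ f y i
    rw [hg, ← coe_eval₂Hom, map_sum]
    refine Finset.sum_congr rfl fun j _ => ?_
    rw [map_mul, map_pow, coe_eval₂Hom, eval₂_rename, eval₂_X]
  obtain ⟨u, hu⟩ := bezout A g (by
    intro y hy
    apply h (y ∘ Sum.inl) (y (Sum.inr ()))
    intro i
    have h1 := hy i
    rw [aeval_def, hgv] at h1
    rw [← h1]
    refine Finset.sum_congr rfl fun j _ => ?_
    rw [← hc' i j, eval_map])
  refine ⟨(Finset.univ : Finset (Fin 2)).biUnion fun i => (u i).support.image fun s => ((coeff s (u i) : A) : ℂ), ?_, ?_⟩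
  · intro z hz
    obtain ⟨i, -, hi⟩ := Finset.mem_biUnion.mp hz
    obtain ⟨s, -, rfl⟩ := Finset.mem_image.mp hi
    exact (coeff s (u i)).2
  intro p _ τ hU hci t ht ξ hz
  obtain ⟨w, hw⟩ := Ideal.Quotient.mk_surjective ξ
  set y : Fin m ⊕ Unit → PadicAlgCl p := Sum.elim (fun i => τ (t i)) (fun _ => (w : PadicAlgCl p)) with hy
  have hyO : ∀ i, y i ∈ Oc p := by
    rintro (i | i)
    · exact mem_Oc.2 (ht i)
    · exact w.2
  set φ : A →+* PadicAlgCl p := τ.comp (algebraMap A ℂ) with hφ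
  have huO : ∀ i, eval₂ φ y (u i) ∈ Oc p := by
    intro i
    apply eval_mem φ _ _ _ hyO
    intro s
    by_cases hs : coeff s (u i) = 0
    · rw [hs, map_zero, norm_zero]
      exact zero_le_one
    · exact (hU _ (Finset.mem_biUnion.mpr ⟨i, Finset.mem_univ i, Finset.mem_image.mpr ⟨s, mem_support_iff.mpr hs, rfl⟩⟩)).1
  have hcO : ∀ i j, ‖τ (eval t (c i j))‖ ≤ 1 := by
    intro i j
    rw [map_eval]
    exact mem_Oc.1 (eval_mem τ _ (hci i j) _ fun i => mem_Oc.2 (ht i))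
  set G : Fin 2 → Oc p := fun i => ∑ j, (⟨τ (eval t (c i j)), mem_Oc.2 (hcO i j)⟩ : Oc p) * w ^ e j with hG
  set U : Fin 2 → Oc p := fun i => ⟨eval₂ φ y (u i), huO i⟩ with hUd
  have hGv : ∀ i, (G i : PadicAlgCl p) = eval₂ φ y (g i) := by
    intro i
    rw [hgv, hG]
    push_cast
    refine Finset.sum_congr rfl fun j _ => ?_
    have h1 : τ (eval t (c i j)) = eval₂ φ (y ∘ Sum.inl) (c' i j) := by
      rw [map_eval, ← hc' i j, eval₂_map]
      rfl
    rw [h1]
    rfl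
  have h1 : ∑ i, U i * G i = 1 := by
    apply Subtype.ext
    push_cast
    have h2 := congrArg (eval₂Hom φ y) hu
    rw [map_sum, map_one] at h2
    rw [← h2]
    refine Finset.sum_congr rfl fun i _ => ?_
    rw [map_mul, hGv]
    rfl
  have h2 : ∀ i, Ideal.Quotient.mk (mm p) (G i) = 0 := by
    intro i
    rw [← hz i, hG, map_sum]
    refine Finset.sum_congr rfl fun j _ => ?_
    rw [map_mul, map_pow, hw, rd_eq τ (hcO i j)]
  have h3 := congrArg (Ideal.Quotient.mk (mm p)) h1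
  rw [map_sum, map_one] at h3
  simp only [map_mul, h2, mul_zero, Finset.sum_const_zero] at h3
  exact zero_ne_one h3

/-- **GR**: good reduction of a family -/
theorem redS (A : Subfield ℂ) (hA : ∀ z : ℂ, IsAlgebraic A z → z ∈ A) {m k : ℕ} {d : Fin k → ℕ}
    (C : Idx d → MvPolynomial (Fin m) ℂ) (hC : ∀ q s, coeff s (C q) ∈ A)
    (hdeg : ∀ t : Fin m → ℂ, HasDeg (at' C t)) : ∃ Z : Finset ℂ, (∀ z ∈ Z, z ∈ A) ∧
      ∀ (p : ℕ) [Fact p.Prime] (τ : ℂ →+* PadicAlgCl p), Un τ Z → (∀ q s, ‖τ (coeff s (C q))‖ ≤ 1) ∧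
        ∀ t : Fin m → ℂ, (∀ i, ‖τ (t i)‖ ≤ 1) → ∀ a (x : Fin 2 → kk p), x ≠ 0 →
          ev (form (fun q => rd τ (at' C t q)) a) x ≠ 0 := by
  classical
  have c1 := fun a : Fin k => chart A (fun i (j : Fin (d a + 1)) => C ⟨a, (i, j)⟩) (fun i j s => hC _ s) (fun j => (j : ℕ)) (by
    intro t x h
    have h1 := hdeg t a ![x, 1] (by
      funext i
      rw [Pi.zero_apply, ← h i]
      refine Finset.sum_congr rfl fun j _ => ?_
      simp [at'])
    have h2 := congrFun h1 1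
    simp at h2)
  have c2 := fun a : Fin k => chart A (fun i (j : Fin (d a + 1)) => C ⟨a, (i, j)⟩) (fun i j s => hC _ s) (fun j => d a - (j : ℕ)) (by
    intro t x h
    have h1 := hdeg t a ![1, x] (by
      funext i
      rw [Pi.zero_apply, ← h i]
      refine Finset.sum_congr rfl fun j _ => ?_
      simp [at'])
    have h2 := congrFun h1 0
    simp at h2)
  choose Z1 hZ1 H1 using c1
  choose Z2 hZ2 H2 using c2
  refine ⟨(Finset.univ.biUnion fun a => Z1 a ∪ Z2 a) ∪ Finset.univ.biUnion fun q => (C q).support.image fun s => coeff s (C q),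
    ?_, ?_⟩
  · intro z hz
    rcases Finset.mem_union.mp hz with h | h
    · obtain ⟨a, -, ha⟩ := Finset.mem_biUnion.mp h
      rcases Finset.mem_union.mp ha with h | h
      · exact hZ1 a z h
      · exact hZ2 a z h
    · obtain ⟨q, -, hq⟩ := Finset.mem_biUnion.mp h
      obtain ⟨s, -, rfl⟩ := Finset.mem_image.mp hq
      exact hC q s
  intro p _ τ hU
  have hci : ∀ q s, ‖τ (coeff s (C q))‖ ≤ 1 := by
    intro q s
    by_cases hs : coeff s (C q) = 0
    · rw [hs, map_zero, norm_zero]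
      exact zero_le_one
    · exact (hU _ (Finset.mem_union_right _ (Finset.mem_biUnion.mpr ⟨q, Finset.mem_univ q,
        Finset.mem_image.mpr ⟨s, mem_support_iff.mpr hs, rfl⟩⟩))).1
  refine ⟨hci, fun t ht a x hx h => ?_⟩
  have hv : ∀ i, ∑ j : Fin (d a + 1), rd τ (eval t (C ⟨a, (i, j)⟩)) * x 0 ^ (j : ℕ) * x 1 ^ (d a - j) = 0 := by
    intro i
    have h1 := congrFun h i
    simp only [ev, Pi.zero_apply] at h1
    rw [eval_form] at h1
    exact h1
  by_cases h1 : x 1 = 0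
  · have h0 : x 0 ≠ 0 := by
      intro h0
      apply hx
      funext i
      fin_cases i
      · exact h0
      · exact h1
    refine H2 a p τ (fun z hz => hU z (Finset.mem_union_left _ (Finset.mem_biUnion.mpr ⟨a, Finset.mem_univ a,
      Finset.mem_union_right _ hz⟩))) (fun i j s => hci _ s) t ht (x 1 / x 0) fun i => ?_
    have h2 : (∑ j : Fin (d a + 1), rd τ (eval t (C ⟨a, (i, j)⟩)) * (x 1 / x 0) ^ (d a - (j : ℕ))) * x 0 ^ d a = 0 := by
      rw [← hv i, Finset.sum_mul]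
      refine Finset.sum_congr rfl fun j _ => ?_
      have e : x 0 ^ d a = x 0 ^ (j : ℕ) * x 0 ^ (d a - (j : ℕ)) := by
        rw [← pow_add]
        congr 1
        have := j.2
        omega
      rw [e, div_pow]
      field_simp
    exact (mul_eq_zero.mp h2).resolve_right (pow_ne_zero _ h0)
  · refine H1 a p τ (fun z hz => hU z (Finset.mem_union_left _ (Finset.mem_biUnion.mpr ⟨a, Finset.mem_univ a,
      Finset.mem_union_left _ hz⟩))) (fun i j s => hci _ s) t ht (x 0 / x 1) fun i => ?_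
    have h2 : (∑ j : Fin (d a + 1), rd τ (eval t (C ⟨a, (i, j)⟩)) * (x 0 / x 1) ^ (j : ℕ)) * x 1 ^ d a = 0 := by
      rw [← hv i, Finset.sum_mul]
      refine Finset.sum_congr rfl fun j _ => ?_
      have e : x 1 ^ d a = x 1 ^ (j : ℕ) * x 1 ^ (d a - (j : ℕ)) := by
        rw [← pow_add]
        congr 1
        have := j.2
        omega
      rw [e, div_pow]
      field_simp
    exact (mul_eq_zero.mp h2).resolve_right (pow_ne_zero _ h1)

end

end Pool.Agent.Helper11.OS
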